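import Pool.Agent.Work.MP_ea6116_an.Main

/-!
MP_ea6116_an: the gradient three-sets inequality with constants which are uniform in the
coefficients, and with the supremum over a compact subset of the domain.
-/

set_option autoImplicit false

open MeasureTheory Metric Set Filter Topology
open scoped ENNReal NNReal ContDiff

namespace EAOwn

open EAGrad

/-- `sup_S |∇u|`. -/
noncomputable def supGrad {n : ℕ} (u : En n → ℝ) (S : Set (En n)) : ℝ≥0∞ :=
  ⨆ x ∈ S, ‖gradient u x‖ₑ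

/-- Hausdorff content with balls. -/
noncomputable def hausdorffContent {n : ℕ} (d : ℝ) (E : Set (En n)) : ℝ≥0∞ :=
  ⨅ (x : ℕ → En n) (r : ℕ → ℝ≥0) (_ : E ⊆ ⋃ j, ball (x j) (r j)), ∑' j, (r j : ℝ≥0∞) ^ d

/-! ## Matrices and operators -/

/-- The linear operator of a matrix. -/
noncomputable def opOf {n : ℕ} (M : Matrix (Fin n) (Fin n) ℝ) : En n →L[ℝ] En n :=
  LinearMap.toContinuousLinearMap (Matrix.toEuclideanLin M)

theorem opOf_apply {n : ℕ} (M : Matrix (Fin n) (Fin n) ℝ) (ξ : En n) (i : Fin n) :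
    opOf M ξ i = ∑ j, M i j * ξ j := by
  simp [opOf, Matrix.mulVec, dotProduct]

theorem inner_opOf {n : ℕ} (M : Matrix (Fin n) (Fin n) ℝ) (ξ η : En n) :
    inner ℝ (opOf M ξ) η = ∑ i, ∑ j, M i j * ξ j * η i := by
  rw [PiLp.inner_apply]
  refine Finset.sum_congr rfl fun i _ => ?_
  rw [opOf_apply, ← Finset.sum_mul]
  simp [mul_comm]

theorem norm_opOf_le {n : ℕ} (M : Matrix (Fin n) (Fin n) ℝ) {c : ℝ} (hc : 0 ≤ c)
    (h : ∀ i j, |M i j| ≤ c) : ‖opOf M‖ ≤ n * c := by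
  refine ContinuousLinearMap.opNorm_le_bound _ (by positivity) fun ξ => ?_
  have h1 : ∀ i, (opOf M ξ i) ^ 2 ≤ n * c ^ 2 * ‖ξ‖ ^ 2 := by
    intro i
    rw [opOf_apply]
    calc (∑ j, M i j * ξ j) ^ 2 ≤ (∑ j, M i j ^ 2) * ∑ j, ξ j ^ 2 :=
          Finset.sum_mul_sq_le_sq_mul_sq _ _ _
      _ ≤ (∑ _j : Fin n, c ^ 2) * ‖ξ‖ ^ 2 := by
          have h2 : ∑ j, ξ j ^ 2 = ‖ξ‖ ^ 2 := by
            rw [EuclideanSpace.norm_sq_eq]
            simp
          rw [h2]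
          refine mul_le_mul_of_nonneg_right (Finset.sum_le_sum fun j _ => ?_) (by positivity)
          rw [← sq_abs]
          exact pow_le_pow_left₀ (abs_nonneg _) (h i j) 2
      _ = n * c ^ 2 * ‖ξ‖ ^ 2 := by simp
  have h2 : ‖opOf M ξ‖ ^ 2 ≤ (n * c * ‖ξ‖) ^ 2 := by
    rw [EuclideanSpace.norm_sq_eq]
    calc ∑ i, ‖opOf M ξ i‖ ^ 2 ≤ ∑ _i : Fin n, n * c ^ 2 * ‖ξ‖ ^ 2 := by
          refine Finset.sum_le_sum fun i _ => ?_
          simpa using h1 i
      _ = (n * c * ‖ξ‖) ^ 2 := by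
          simp
          ring
  exact le_of_sq_le_sq h2 (by positivity)

theorem opOf_sub {n : ℕ} (M N : Matrix (Fin n) (Fin n) ℝ) : opOf M - opOf N = opOf (M - N) := by
  ext ξ i
  simp [opOf_apply, sub_mul, Finset.sum_sub_distrib]

theorem infDist_compl_ge {n : ℕ} {Ω : Set (En n)} (hb : Bornology.IsBounded Ω) (hn : 2 ≤ n)
    {x : En n} (hx : x ∈ Ω) {ρ : ℝ} (h : ∀ y ∈ frontier Ω, ρ ≤ dist x y) : ρ ≤ infDist x Ωᶜ := by
  have hne : Ω ≠ univ := by
    rintro rfl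
    have : Nontrivial (En n) := by
      have : Nonempty (Fin n) := ⟨⟨0, by omega⟩⟩
      infer_instance
    exact NormedSpace.unbounded_univ ℝ (En n) hb
  obtain ⟨y, hy, hxy⟩ := exists_mem_frontier_infDist_compl_eq_dist hx hne
  rw [hxy]
  exact h y hy

theorem hausdorffContent_le {n : ℕ} {d : ℝ} (hd : 0 < d) (E : Set (En n)) :
    hausdorffContent d E ≤ ⨅ (t : ℕ → Set (En n)) (_ : E ⊆ ⋃ i, t i), ∑' i, Metric.ediam (t i) ^ d := by
  refine le_iInf fun t => le_iInf fun ht => ?_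
  refine ENNReal.le_of_forall_pos_le_add fun ε hε hfin => ?_
  obtain ⟨ε', hε', hsum⟩ := ENNReal.exists_pos_sum_of_countable
    (ENNReal.coe_ne_zero.2 hε.ne') ℕ
  have h1 : ∀ i, ∃ (x : En n) (r : ℝ≥0), t i ⊆ ball x r ∧
      (r : ℝ≥0∞) ^ d ≤ Metric.ediam (t i) ^ d + ε' i := by
    intro i
    have hlt : Metric.ediam (t i) ^ d ≠ ⊤ := ne_top_of_le_ne_top hfin.ne (ENNReal.le_tsum i)
    have hlt2 : Metric.ediam (t i) ≠ ⊤ := by
      intro h
      rw [h, ENNReal.top_rpow_of_pos hd] at hlt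
      exact hlt rfl
    have h2 : Metric.ediam (t i) ^ d < Metric.ediam (t i) ^ d + ε' i :=
      ENNReal.lt_add_right hlt (by exact_mod_cast (hε' i).ne')
    obtain ⟨D, hD⟩ : ∃ D : ℝ≥0, Metric.ediam (t i) = D := ⟨_, (ENNReal.coe_toNNReal hlt2).symm⟩
    obtain ⟨r, hDr, hr⟩ : ∃ r : ℝ≥0, D < r ∧ (r : ℝ≥0∞) ^ d ≤ Metric.ediam (t i) ^ d + ε' i := by
      have hcont : ContinuousAt (fun r : ℝ≥0 => (r : ℝ≥0∞) ^ d) D :=
        ((ENNReal.continuous_rpow_const (y := d)).comp ENNReal.continuous_coe).continuousAt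
      have h3 : ∀ᶠ r : ℝ≥0 in 𝓝 D, (r : ℝ≥0∞) ^ d < Metric.ediam (t i) ^ d + ε' i := by
        apply hcont.eventually_lt_const
        have h5 := h2
        rw [hD] at h5
        rw [hD]
        exact h5
      have h4 : ∃ᶠ r : ℝ≥0 in 𝓝 D, D < r := frequently_gt_nhds D
      obtain ⟨r, hr1, hr2⟩ := (h4.and_eventually h3).exists
      exact ⟨r, hr1, hr2.le⟩
    rcases (t i).eq_empty_or_nonempty with he | ⟨x, hx⟩
    · refine ⟨0, r, ?_, hr⟩
      rw [he]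
      exact empty_subset _
    · refine ⟨x, r, fun y hy => ?_, hr⟩
      have h5 : edist y x ≤ Metric.ediam (t i) := Metric.edist_le_ediam_of_mem hy hx
      rw [hD, edist_nndist] at h5
      have h6 : nndist y x ≤ D := by exact_mod_cast h5
      rw [mem_ball, dist_nndist]
      exact_mod_cast h6.trans_lt hDr
  choose x r hx hr using h1
  have h2 : hausdorffContent d E ≤ ∑' j, (r j : ℝ≥0∞) ^ d := by
    unfold hausdorffContent
    refine iInf_le_of_le x (iInf_le_of_le r (iInf_le_of_le ?_ le_rfl))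
    exact ht.trans (iUnion_mono fun i => hx i)
  calc hausdorffContent d E ≤ ∑' j, (r j : ℝ≥0∞) ^ d := h2
    _ ≤ ∑' j, (Metric.ediam (t j) ^ d + ε' j) := ENNReal.tsum_le_tsum hr
    _ = ∑' j, Metric.ediam (t j) ^ d + ∑' j, (ε' j : ℝ≥0∞) := ENNReal.tsum_add
    _ ≤ _ := by gcongr

/-! ## Uniform propagation -/

/-- Scaling of a solution by a constant. -/
theorem sol_const_mul {n : ℕ} {A : En n → Op n} {u : En n → ℝ} {U : Set (En n)} (h : Sol A u U)
    (c : ℝ) : Sol A (fun x => c * u x) U ∧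
      ∀ x ∈ U, gradient (fun x => c * u x) x = c • gradient u x := by
  have hg : ∀ x ∈ U, gradient (fun x => c * u x) x = c • gradient u x := by
    intro x hx
    have h1 : DifferentiableAt ℝ u x := h.differentiableAt hx
    unfold gradient
    rw [fderiv_const_mul h1, map_smul]
  refine ⟨⟨h.isOpen, contDiffOn_const.mul h.c1, fun φ h1 h2 h3 => ?_⟩, hg⟩
  have h4 : ∀ x, inner ℝ (A x (gradient (fun x => c * u x) x)) (gradient φ x) =
      c * inner ℝ (A x (gradient u x)) (gradient φ x) := by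
    intro x
    by_cases hx : x ∈ U
    · rw [hg x hx, map_smul, real_inner_smul_left]
    · have hx' : x ∉ tsupport φ := fun h => hx (h3 h)
      have h5 : φ =ᶠ[𝓝 x] fun _ => 0 := notMem_tsupport_iff_eventuallyEq.1 hx'
      have h6 : gradient φ x = 0 := by
        rw [← norm_eq_zero, norm_gradient, h5.fderiv_eq, fderiv_fun_const]
        simp
      rw [h6, inner_zero_right, inner_zero_right, mul_zero]
  simp_rw [h4]
  rw [integral_const_mul, h.weak φ h1 h2 h3, mul_zero]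

/-- The estimate for normalised solutions, uniformly in the coefficients, with the supremum over
`Ω` replaced by the supremum over a compact subset which depends only on `Ω` and `ρ`. -/
theorem unif (hFA : StmtFA) (hFB : StmtFB) (n : ℕ) (hn : 2 ≤ n) (Ω : Set (En n)) (hO : IsOpen Ω)
    (hconn : IsConnected Ω) (hbdd : Bornology.IsBounded Ω) (ρ : ℝ) (hρ : 0 < ρ) :
    ∃ V : Set (En n), IsCompact V ∧ V ⊆ Ω ∧ {x | ρ ≤ infDist x Ωᶜ} ⊆ V ∧
      ∀ d lam L m : ℝ, (n : ℝ) - 2 < d → 1 ≤ lam → 0 ≤ L → 0 < m →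
      ∃ C γ : ℝ, 1 ≤ C ∧ 0 < γ ∧ ∀ (A : En n → Op n) (u : En n → ℝ), Sol A u Ω → Ell lam L A Ω →
        (∀ x ∈ V, ‖gradient u x‖ ≤ 1) →
        ∀ E : Set (En n), E ⊆ {x | ρ ≤ infDist x Ωᶜ} → ENNReal.ofReal m ≤ cont n d E →
        ∀ ε : ℝ, 0 < ε → (∀ x ∈ E, ‖gradient u x‖ ≤ ε) →
        ∀ x, ρ ≤ infDist x Ωᶜ → ‖gradient u x‖ ≤ C * ε ^ γ := by
  classical
  have hn' : (2 : ℝ) ≤ n := by exact_mod_cast hn
  -- the compact set
  set W : Set (En n) := {x | ρ ≤ infDist x Ωᶜ} with hW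
  have hWO : W ⊆ Ω := by
    intro x hx
    by_contra hx'
    have h1 : infDist x Ωᶜ = 0 := infDist_zero_of_mem hx'
    have h2 : ρ ≤ infDist x Ωᶜ := hx
    linarith
  have hWc : IsCompact W := by
    refine Metric.isCompact_of_isClosed_isBounded ?_ (hbdd.subset hWO)
    exact isClosed_le continuous_const (continuous_infDist_pt _)
  obtain ⟨C, hCc, hCp, hWC, hCO⟩ := FIN_hull hO hconn hWc hWO
  obtain ⟨ρ₁, hρ₁, hth⟩ := hCc.exists_cthickening_subset_open hO hCO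
  have hballV : ∀ x ∈ C, ball x ρ₁ ⊆ cthickening ρ₁ C := fun x hx =>
    ball_subset_closedBall.trans (closedBall_subset_cthickening hx ρ₁)
  refine ⟨cthickening ρ₁ C, hCc.cthickening, hth,
    hWC.trans (self_subset_cthickening C), ?_⟩
  intro d lam L m hd2 hlam1 hL hm
  have hballO : ∀ x ∈ C, ball x ρ₁ ⊆ Ω := fun x hx => (hballV x hx).trans hth
  have hd0 : 0 < d := by linarith
  obtain ⟨rA, hrA, hA⟩ := hFA n d lam L ρ₁ hn hd2 hlam1 hL hρ₁
  obtain ⟨rB, hrB, hB⟩ := hFB n lam L ρ₁ hn hlam1 hL hρ₁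
  set r : ℝ := min rA rB with hr
  have hr0 : 0 < r := lt_min hrA hrB
  obtain ⟨CB, γB, hCB, hγB, hB⟩ := hB r hr0 (min_le_right _ _)
  -- the class of pairs
  set G : (En n → Op n) → (En n → ℝ) → Prop := fun A u => Sol A u Ω ∧ Ell lam L A Ω ∧
    ∀ x ∈ cthickening ρ₁ C, ‖gradient u x‖ ≤ 1 with hG
  have hE : ∀ A u, G A u → ∀ x ∈ C, Ell lam L A (ball x ρ₁) := by
    intro A u hu x hx
    exact ⟨fun y hy => hu.2.1.symm y (hballO x hx hy), fun y hy => hu.2.1.ell y (hballO x hx hy),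
      fun y hy z hz => hu.2.1.lip y (hballO x hx hy) z (hballO x hx hz)⟩
  -- propagation between two points of `C`
  set P : En n → En n → Prop := fun x y => ∃ C' γ' : ℝ, 0 < C' ∧ 0 < γ' ∧
    ∀ (A : En n → Op n) (u : En n → ℝ), G A u →
    ∀ a : ℝ, 0 < a → (∀ w ∈ closedBall x r, ‖gradient u w‖ ≤ a) →
      ∀ w ∈ closedBall y r, ‖gradient u w‖ ≤ C' * a ^ γ' with hP
  have hnear : ∀ x ∈ C, ∀ y, dist y x ≤ r → P x y := by
    intro x hx y hxy
    refine ⟨CB, γB, hCB, hγB, fun A u hu a ha hax w hw => ?_⟩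
    refine hB A u x a (hu.1.mono isOpen_ball (hballO x hx)) (hE A u hu x hx)
      (fun z hz => hu.2.2 z (hballV x hx hz)) ha hax w ?_
    rw [mem_closedBall] at hw ⊢
    have := dist_triangle w y x
    linarith
  have htrans : ∀ x y z : En n, P x y → P y z → P x z := by
    rintro x y z ⟨C₁, γ₁, hC₁, hγ₁, h1⟩ ⟨C₂, γ₂, hC₂, hγ₂, h2⟩
    refine ⟨C₂ * C₁ ^ γ₂, γ₁ * γ₂, by positivity, by positivity, fun A u hu a ha hax w hw => ?_⟩
    have h3 := h2 A u hu (C₁ * a ^ γ₁) (by positivity) (h1 A u hu a ha hax) w hw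
    refine h3.trans (le_of_eq ?_)
    rw [Real.mul_rpow hC₁.le (by positivity), ← Real.rpow_mul ha.le, mul_assoc]
  have hall : ∀ x ∈ C, ∀ y ∈ C, P x y := by
    intro x hx y hy
    refine hCp.induction₂' P (fun z hz => ?_) (fun x y z _ _ _ => htrans x y z) hx hy
    have h1 : ball z r ∈ 𝓝[C] z := mem_nhdsWithin_of_mem_nhds (ball_mem_nhds z hr0)
    filter_upwards [h1, self_mem_nhdsWithin] with w hw hwC
    have h2 : dist w z < r := hw
    exact ⟨hnear z hz w h2.le, hnear w hwC z (by rw [dist_comm]; exact h2.le)⟩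
  -- a finite net
  obtain ⟨t0, ht0C, ht0fin, ht0cov⟩ := hCc.finite_cover_balls (e := r) hr0
  set t : Finset (En n) := ht0fin.toFinset with ht
  have htC : ∀ z ∈ t, z ∈ C := fun z hz => ht0C (by simpa [ht] using hz)
  have htcov : ∀ x ∈ C, ∃ z ∈ t, x ∈ closedBall z r := by
    intro x hx
    obtain ⟨z, hz, hxz⟩ := mem_iUnion₂.1 (ht0cov hx)
    exact ⟨z, by simpa [ht] using hz, ball_subset_closedBall hxz⟩
  set m' : ℝ := m / (t.card + 1) with hm'
  have hm'0 : 0 < m' := by positivity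
  obtain ⟨CA, γA, hCA, hγA, hA⟩ := hA r hr0 (min_le_left _ _) m' hm'0
  -- uniform constants
  obtain ⟨CC, γ, hCC, hγ, hQ⟩ := FIN_unif (t ×ˢ t) (fun p C' γ' =>
    ∀ (A : En n → Op n) (u : En n → ℝ), G A u →
    ∀ S : Set (En n), ∀ ε : ℝ, 0 < ε → S ⊆ closedBall p.1 r → (∀ x ∈ S, ‖gradient u x‖ ≤ ε) →
      ENNReal.ofReal m' ≤ cont n d S → ∀ w ∈ closedBall p.2 r, ‖gradient u w‖ ≤ C' * ε ^ γ') (by
    rintro ⟨z, z'⟩ hp
    rw [Finset.mem_product] at hp
    obtain ⟨C₁, γ₁, hC₁, hγ₁, h1⟩ := hall z (htC z hp.1) z' (htC z' hp.2)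
    refine ⟨C₁ * CA ^ γ₁, γA * γ₁, by positivity, by positivity,
      fun A u hu S ε hε hS hSε hcont w hw => ?_⟩
    have hx := htC z hp.1
    have h2 := hA A u z S ε (hu.1.mono isOpen_ball (hballO z hx)) (hE A u hu z hx)
      (fun y hy => hu.2.2 y (hballV z hx hy)) hε hS hSε hcont
    have h3 := h1 A u hu (CA * ε ^ γA) (by positivity) h2 w hw
    refine h3.trans (le_of_eq ?_)
    rw [Real.mul_rpow hCA.le (by positivity), ← Real.rpow_mul hε.le, mul_assoc])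
  refine ⟨CC, γ, hCC, hγ, ?_⟩
  intro A u hsol hell hub E hEW hcont ε hε hEε x hxW
  have hGu : G A u := ⟨hsol, hell, hub⟩
  have hEC : E ⊆ C := fun y hy => hWC (hEW hy)
  have hxC : x ∈ C := hWC hxW
  -- large `ε`
  rcases le_or_gt 1 ε with h1ε | hε1
  · calc ‖gradient u x‖ ≤ 1 := hub x (self_subset_cthickening C hxC)
      _ ≤ 1 * 1 := by norm_num
      _ ≤ CC * ε ^ γ := mul_le_mul hCC (Real.one_le_rpow h1ε hγ.le) zero_le_one (by linarith)
  -- a ball which sees a part of `E`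
  obtain ⟨z, hz, hzE⟩ : ∃ z ∈ t, ENNReal.ofReal m' ≤ cont n d (E ∩ closedBall z r) := by
    by_contra hcon
    push Not at hcon
    have h1 : E ⊆ ⋃ z ∈ t, (E ∩ closedBall z r) := by
      intro y hy
      obtain ⟨z, hz, hyz⟩ := htcov y (hEC hy)
      exact mem_iUnion₂.2 ⟨z, hz, hy, hyz⟩
    have h2 : cont n d E ≤ ∑ z ∈ t, ENNReal.ofReal m' :=
      (cont_mono h1).trans ((cont_biUnion_finset_le hd0 _ _).trans
        (Finset.sum_le_sum fun z hz => (hcon z hz).le))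
    rw [Finset.sum_const, nsmul_eq_mul, ← ENNReal.ofReal_natCast, ← ENNReal.ofReal_mul
      (by positivity)] at h2
    have h3 := (hcont.trans h2)
    rw [ENNReal.ofReal_le_ofReal_iff (by positivity)] at h3
    have h4 : (t.card : ℝ) * m' < m := by
      rw [hm', mul_div_assoc', div_lt_iff₀ (by positivity)]
      nlinarith
    linarith
  obtain ⟨z', hz', hxz'⟩ := htcov x hxC
  obtain ⟨C₁, γ₁, hC₁, hC₁C, hγγ₁, hQ1⟩ := hQ (z, z') (Finset.mem_product.2 ⟨hz, hz'⟩)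
  have h5 := hQ1 A u hGu (E ∩ closedBall z r) ε hε inter_subset_right
    (fun y hy => hEε y hy.1) hzE x hxz'
  refine h5.trans (mul_le_mul hC₁C ?_ (by positivity) (by linarith))
  exact Real.rpow_le_rpow_of_exponent_ge hε hε1.le hγγ₁

/-! ## The three-sets inequality -/

theorem supGrad_mono {n : ℕ} (u : En n → ℝ) {S T : Set (En n)} (h : S ⊆ T) :
    supGrad u S ≤ supGrad u T :=
  biSup_mono fun _ hx => h hx

theorem le_supGrad {n : ℕ} (u : En n → ℝ) {S : Set (En n)} {x : En n} (hx : x ∈ S) :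
    ‖gradient u x‖ₑ ≤ supGrad u S :=
  le_iSup₂_of_le x hx le_rfl

theorem norm_le_toReal {n : ℕ} (u : En n → ℝ) {S : Set (En n)} (hS : supGrad u S ≠ ⊤) {x : En n}
    (hx : x ∈ S) : ‖gradient u x‖ ≤ (supGrad u S).toReal := by
  have h1 := ENNReal.toReal_mono hS (le_supGrad u hx)
  simpa using h1

/-- The final computation. -/
theorem three_sets_real {C γ M e b : ℝ} (hC : 1 ≤ C) (hγ : 0 < γ) (hM : 0 < M) (he : 0 ≤ e)
    (heM : e ≤ M) (h : ∀ ε : ℝ, 0 < ε → e ≤ ε * M → b ≤ C * ε ^ γ) :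
    M * b ≤ C * e ^ (min γ (1 / 2)) * M ^ (1 - min γ (1 / 2)) := by
  have hγ' : 0 < min γ (1 / 2) := lt_min hγ (by norm_num)
  have hC0 : 0 < C := by linarith
  rcases he.eq_or_lt with h0 | h0
  · rw [← h0, Real.zero_rpow hγ'.ne', mul_zero, zero_mul]
    have hb : b ≤ 0 := by
      by_contra hb
      push Not at hb
      have h1 : 0 < (b / (2 * C)) ^ (1 / γ) := Real.rpow_pos_of_pos (by positivity) _
      have h2 := h _ h1 (by rw [← h0]; positivity)
      rw [← Real.rpow_mul (by positivity), one_div_mul_cancel hγ.ne', Real.rpow_one] at h2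
      have h3 : C * (b / (2 * C)) = b / 2 := by field_simp
      rw [h3] at h2
      linarith
    exact mul_nonpos_of_nonneg_of_nonpos hM.le hb
  · have h1 : 0 < e / M := by positivity
    have h2 : e / M ≤ 1 := (div_le_one hM).2 heM
    have h3 := h (e / M) h1 (by rw [div_mul_cancel₀ _ hM.ne'])
    have h4 : (e / M) ^ γ ≤ (e / M) ^ (min γ (1 / 2)) :=
      Real.rpow_le_rpow_of_exponent_ge h1 h2 (min_le_left _ _)
    calc M * b ≤ M * (C * (e / M) ^ (min γ (1 / 2))) := by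
          refine mul_le_mul_of_nonneg_left (h3.trans ?_) hM.le
          exact mul_le_mul_of_nonneg_left h4 hC0.le
      _ = C * e ^ (min γ (1 / 2)) * M ^ (1 - min γ (1 / 2)) := by
          rw [Real.div_rpow he hM.le, Real.rpow_sub hM, Real.rpow_one]
          ring

theorem three_sets {n : ℕ} {d C γ lam L m ρ : ℝ} {Ω V : Set (En n)} (hVc : IsCompact V)
    (hVO : V ⊆ Ω) (hWV : {x | ρ ≤ infDist x Ωᶜ} ⊆ V) (hC : 1 ≤ C) (hγ : 0 < γ)
    (hmain : ∀ (A : En n → Op n) (u : En n → ℝ), Sol A u Ω → Ell lam L A Ω →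
        (∀ x ∈ V, ‖gradient u x‖ ≤ 1) →
        ∀ E : Set (En n), E ⊆ {x | ρ ≤ infDist x Ωᶜ} → ENNReal.ofReal m ≤ cont n d E →
        ∀ ε : ℝ, 0 < ε → (∀ x ∈ E, ‖gradient u x‖ ≤ ε) →
        ∀ x, ρ ≤ infDist x Ωᶜ → ‖gradient u x‖ ≤ C * ε ^ γ)
    {A : En n → Op n} {u : En n → ℝ} (hsol : Sol A u Ω) (hell : Ell lam L A Ω)
    {E K : Set (En n)} (hE : E ⊆ {x | ρ ≤ infDist x Ωᶜ}) (hK : K ⊆ {x | ρ ≤ infDist x Ωᶜ})
    (hcont : ENNReal.ofReal m ≤ cont n d E) :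
    supGrad u K ≤ ENNReal.ofReal C * supGrad u E ^ (min γ (1 / 2)) *
      supGrad u V ^ (1 - min γ (1 / 2)) := by
  have hγ' : 0 < min γ (1 / 2) := lt_min hγ (by norm_num)
  have hγ'' : 0 ≤ 1 - min γ (1 / 2) := by
    have : min γ (1 / 2) ≤ 1 / 2 := min_le_right _ _
    linarith
  -- finiteness
  obtain ⟨B, hB⟩ := ((hVc.image_of_continuousOn
    ((hsol.continuousOn_gradient.mono hVO).norm))).bddAbove
  have hVtop : supGrad u V ≠ ⊤ := by
    refine ne_top_of_le_ne_top (ENNReal.ofReal_ne_top (r := B)) ?_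
    refine iSup₂_le fun x hx => ?_
    rw [← ofReal_norm]
    exact ENNReal.ofReal_le_ofReal (hB ⟨x, hx, rfl⟩)
  have hEV : supGrad u E ≤ supGrad u V := supGrad_mono u (hE.trans hWV)
  have hEtop : supGrad u E ≠ ⊤ := ne_top_of_le_ne_top hVtop hEV
  obtain ⟨M, hM⟩ : ∃ M : ℝ, M = (supGrad u V).toReal := ⟨_, rfl⟩
  obtain ⟨e, he⟩ : ∃ e : ℝ, e = (supGrad u E).toReal := ⟨_, rfl⟩
  have hM0 : 0 ≤ M := by rw [hM]; exact ENNReal.toReal_nonneg
  have he0 : 0 ≤ e := by rw [he]; exact ENNReal.toReal_nonneg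
  have heM : e ≤ M := by
    rw [he, hM]
    exact ENNReal.toReal_mono hVtop hEV
  have hVM : ∀ x ∈ V, ‖gradient u x‖ ≤ M := fun x hx => by
    rw [hM]; exact norm_le_toReal u hVtop hx
  have hEe : ∀ x ∈ E, ‖gradient u x‖ ≤ e := fun x hx => by
    rw [he]; exact norm_le_toReal u hEtop hx
  have hMV : supGrad u V = ENNReal.ofReal M := by rw [hM, ENNReal.ofReal_toReal hVtop]
  have heE : supGrad u E = ENNReal.ofReal e := by rw [he, ENNReal.ofReal_toReal hEtop]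
  rw [hMV, heE, ENNReal.ofReal_rpow_of_nonneg he0 hγ'.le,
    ENNReal.ofReal_rpow_of_nonneg hM0 hγ'', ← ENNReal.ofReal_mul (by linarith),
    ← ENNReal.ofReal_mul (by positivity)]
  refine iSup₂_le fun x hx => ?_
  rw [← ofReal_norm]
  apply ENNReal.ofReal_le_ofReal
  rcases hM0.eq_or_lt with h0 | h0
  · have h1 := hVM x (hWV (hK hx))
    rw [← h0] at h1
    exact h1.trans (by positivity)
  -- normalisation
  obtain ⟨hv, hgv⟩ := sol_const_mul hsol M⁻¹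
  have hnv : ∀ y ∈ Ω, ‖gradient (fun z => M⁻¹ * u z) y‖ = M⁻¹ * ‖gradient u y‖ := by
    intro y hy
    rw [hgv y hy, norm_smul, Real.norm_of_nonneg (by positivity)]
  have hxO : x ∈ Ω := hVO (hWV (hK hx))
  have h1 := three_sets_real (C := C) (γ := γ) (M := M) (e := e)
    (b := ‖gradient (fun z => M⁻¹ * u z) x‖) hC hγ h0 he0 heM (fun ε hε heε => by
      refine hmain A (fun z => M⁻¹ * u z) hv hell (fun y hy => ?_) E hE hcont ε hε
        (fun y hy => ?_) x (hK hx)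
      · rw [hnv y (hVO hy), inv_mul_le_iff₀ h0, mul_one]
        exact hVM y hy
      · rw [hnv y (hVO (hWV (hE hy))), inv_mul_le_iff₀ h0]
        have := hEe y hy
        linarith)
  rw [hnv x hxO, ← mul_assoc, mul_inv_cancel₀ h0.ne', one_mul] at h1
  exact h1


/-- The solutions of the statement are solutions in the sense of the proof. -/
theorem sol_of_weak {n : ℕ} {A : En n → Matrix (Fin n) (Fin n) ℝ} {Ω : Set (En n)}
    {u : En n → ℝ} (hO : IsOpen Ω) (hu : ContDiffOn ℝ 1 u Ω)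
    (hw : ∀ φ : En n → ℝ, ContDiff ℝ ∞ φ → HasCompactSupport φ → tsupport φ ⊆ Ω →
      ∫ x in Ω, ∑ i, ∑ j, A x i j * gradient u x j * gradient φ x i = 0) :
    Sol (fun x => opOf (A x)) u Ω := by
  refine ⟨hO, hu, fun φ h1 h2 h3 => ?_⟩
  rw [← hw φ h1 h2 h3]
  simp_rw [inner_opOf]
  symm
  refine setIntegral_eq_integral_of_forall_compl_eq_zero fun y hy => ?_
  have hy' : y ∉ tsupport φ := fun h => hy (h3 h)
  have h4 : φ =ᶠ[𝓝 y] fun _ => 0 := notMem_tsupport_iff_eventuallyEq.1 hy'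
  have h5 : gradient φ y = 0 := by
    rw [← norm_eq_zero, norm_gradient, h4.fderiv_eq, fderiv_fun_const]
    simp
  rw [h5]
  simp

theorem ell_of_coefficient {n : ℕ} {Λ₁ Λ₂ : ℝ} {Ω : Set (En n)}
    {A : En n → Matrix (Fin n) (Fin n) ℝ} (hΛ : 0 < Λ₁)
    (hs : ∀ x ∈ Ω, ∀ i j, A x i j = A x j i)
    (he : ∀ x ∈ Ω, ∀ ζ : En n, Λ₁⁻¹ * ‖ζ‖ ^ 2 ≤ ∑ i, ∑ j, A x i j * ζ j * ζ i ∧
      ∑ i, ∑ j, A x i j * ζ j * ζ i ≤ Λ₁ * ‖ζ‖ ^ 2)
    (hl : ∀ x ∈ Ω, ∀ y ∈ Ω, ∀ i j, |A x i j - A y i j| ≤ Λ₂ * dist x y) :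
    Ell (max Λ₁ 1) (n * max Λ₂ 0) (fun x => opOf (A x)) Ω := by
  refine ⟨fun x hx ξ η => ?_, fun x hx ξ => ?_, fun x hx y hy => ?_⟩
  · rw [inner_opOf, real_inner_comm, inner_opOf, Finset.sum_comm]
    refine Finset.sum_congr rfl fun i _ => Finset.sum_congr rfl fun j _ => ?_
    rw [hs x hx j i]
    ring
  · obtain ⟨h1, h2⟩ := he x hx ξ
    rw [inner_opOf]
    refine ⟨le_trans ?_ h1, h2.trans ?_⟩
    · refine mul_le_mul_of_nonneg_right ?_ (by positivity)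
      exact inv_anti₀ hΛ (le_max_left _ _)
    · exact mul_le_mul_of_nonneg_right (le_max_left _ _) (by positivity)
  · rw [opOf_sub, mul_assoc, ← dist_eq_norm]
    refine norm_opOf_le _ (by positivity) fun i j => ?_
    refine (hl x hx y hy i j).trans ?_
    exact mul_le_mul_of_nonneg_right (le_max_left _ _) dist_nonneg

/-! ## The two local propagation statements -/

theorem local_statements : StmtFA ∧ StmtFB := by
  have hSC : StmtSC := SC
  have hLC : StmtLC := LC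
  have hSQ : StmtSQ := SQ
  have hMV : StmtMV := MV hSC
  have hR1 : StmtR1 := R1 hMV hSC
  have hPT : StmtPT := PT (CARL CID) MOLL hR1
  have hTB : StmtTB0 := TB0 hPT
  have hSL : StmtSL := SL hTB hSC
  have hKEY : StmtKEY := KEY KEYW hPT
  have hPIN : StmtPIN := PIN hSC hSL hKEY IND
  have hL4 : StmtL4 := L4 PROJ WEYL LOGC
  have hDBL : StmtDBL := DBL (DBLE hL4) hSL hR1 hLC hSQ
  have hHC : StmtHC := HC (HC1 LOGC) HC2 WEYL
  have hL5 : StmtL5 := L5 (COMP hMV hSC) hHC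
  have hBASE : StmtBASE := BASE hDBL hL5 hSC
  have hLOC : StmtLOC := LOC hPIN COV hSL hBASE
  exact ⟨FA (G1 hLOC) hLC hSQ hSC, FB (G2 hTB) hLC hSQ hSC⟩

/-- The gradient three-sets inequality. -/
theorem main (n : ℕ) (hn : 2 ≤ n) (Ω : Set (En n)) (hO : IsOpen Ω) (hconn : IsConnected Ω)
    (hbdd : Bornology.IsBounded Ω) (ρ : ℝ) (hρ : 0 < ρ) :
    ∃ V : Set (En n), IsCompact V ∧ V ⊆ Ω ∧
      ∀ Λ₁ Λ₂ δ m : ℝ, 0 < Λ₁ → 0 < δ → 0 < m →
        ∃ C γ : ℝ, 0 < C ∧ 0 < γ ∧ γ < 1 ∧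
          ∀ A : En n → Matrix (Fin n) (Fin n) ℝ, (∀ x ∈ Ω, ∀ i j, A x i j = A x j i) →
          (∀ x ∈ Ω, ∀ ζ : En n, Λ₁⁻¹ * ‖ζ‖ ^ 2 ≤ ∑ i, ∑ j, A x i j * ζ j * ζ i ∧
            ∑ i, ∑ j, A x i j * ζ j * ζ i ≤ Λ₁ * ‖ζ‖ ^ 2) →
          (∀ x ∈ Ω, ∀ y ∈ Ω, ∀ i j, |A x i j - A y i j| ≤ Λ₂ * dist x y) →
          ∀ E K : Set (En n), E ⊆ Ω → K ⊆ Ω →
            ENNReal.ofReal m ≤ hausdorffContent ((n : ℝ) - 2 + δ) E →
            (∀ x ∈ E, ∀ y ∈ frontier Ω, ρ ≤ dist x y) →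
            (∀ x ∈ K, ∀ y ∈ frontier Ω, ρ ≤ dist x y) →
          ∀ u : En n → ℝ, ContDiffOn ℝ 1 u Ω →
            (∀ φ : En n → ℝ, ContDiff ℝ ∞ φ → HasCompactSupport φ → tsupport φ ⊆ Ω →
              ∫ x in Ω, ∑ i, ∑ j, A x i j * gradient u x j * gradient φ x i = 0) →
            supGrad u K ≤ ENNReal.ofReal C * supGrad u E ^ γ * supGrad u V ^ (1 - γ) ∧
            supGrad u K ≤ ENNReal.ofReal C * supGrad u E ^ γ * supGrad u Ω ^ (1 - γ) := by
  obtain ⟨hFA, hFB⟩ := local_statements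
  obtain ⟨V, hVc, hVO, hWV, hunif⟩ := unif hFA hFB n hn Ω hO hconn hbdd ρ hρ
  refine ⟨V, hVc, hVO, fun Λ₁ Λ₂ δ m hΛ hδ hm => ?_⟩
  have hn' : (2 : ℝ) ≤ n := by exact_mod_cast hn
  obtain ⟨C, γ, hC, hγ, hmain⟩ := hunif ((n : ℝ) - 2 + δ) (max Λ₁ 1) (n * max Λ₂ 0) m
    (by linarith) (le_max_right _ _) (by positivity) hm
  refine ⟨C, min γ (1 / 2), by linarith, lt_min hγ (by norm_num),
    (min_le_right _ _).trans_lt (by norm_num), ?_⟩
  intro A hs he hl E K hE hK hcont hEρ hKρ u hu hw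
  have hd : 0 < (n : ℝ) - 2 + δ := by linarith
  have h1 : supGrad u K ≤ ENNReal.ofReal C * supGrad u E ^ (min γ (1 / 2)) *
      supGrad u V ^ (1 - min γ (1 / 2)) :=
    three_sets hVc hVO hWV hC hγ hmain (sol_of_weak hO hu hw) (ell_of_coefficient hΛ hs he hl)
      (fun x hx => infDist_compl_ge hbdd hn (hE hx) (hEρ x hx))
      (fun x hx => infDist_compl_ge hbdd hn (hK hx) (hKρ x hx))
      (hcont.trans (hausdorffContent_le hd E))
  refine ⟨h1, h1.trans (mul_le_mul_right (ENNReal.rpow_le_rpow (supGrad_mono u hVO) ?_) _)⟩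
  have : min γ (1 / 2) ≤ 1 / 2 := min_le_right _ _
  linarith

end EAOwn
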